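import Mathlib
import Pool.Agent.Y269.RankFinal

/-!
# A simple C*-algebra in which not all ranks occur

The algebra is an inductive limit of algebras of equivariant matrix valued functions over products
of intervals and spheres (of rapidly increasing dimensions), with point evaluations at a dense
sequence of points; the missing rank function is the continuous affine function `τ ↦ τ (1 + u)`,
where `u` is the first coordinate function. If it were the rank function of a positive element
`a`, then by compactness the ranks of good approximations of `a` at the points of the base spaces
would be close to the values of the function, uniformly in the point. A Borsuk-Ulam theorem on a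
product of spheres produces points at which an approximation is block diagonal and degenerate in
many blocks at the same time, and a dimension count (with Hausdorff dimension) shows that generic
perturbations of the test vectors avoid such degenerate points.
-/

set_option autoImplicit false

namespace Pool.Agent.Results.MP_d8b6c2_an.RankProblem

open Pool.Agent.Y269.RankDef
open scoped ENNReal

/-- There is a unital simple separable stably finite non-elementary C*-algebra `A` and a continuous
affine function `f` on the space of its normalised 2-quasitraces, with values in `[1,2]`, which is
not the rank function of a positive element of `A ⊗ K`: for every positive `a` there is a tracial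
state `τ`, with its extension `σ` to a lower semicontinuous trace on the positive cone of `A ⊗ K`,
such that `d_σ(a) ≠ f(τ)`. -/
theorem result : ∃ (A : Type) (_ : CStarAlgebra A) (B : Type) (_ : NonUnitalCStarAlgebra B)
    (_ : PartialOrder B) (_ : StarOrderedRing B) (ι : ℕ → ℕ → A →ₗ[ℂ] B),
    IsStabilisation ι ∧ TopologicalSpace.SeparableSpace A ∧ IsSimpleRing A ∧ StablyFinite A ∧
    NonElementary A ∧
    ∃ f : QT A → ℝ≥0∞, Continuous f ∧ IsAffine f ∧ (∀ τ, 1 ≤ f τ ∧ f τ ≤ 2) ∧
      ∀ a : B, 0 ≤ a → ∃ (τ : QT A) (σ : B → ℝ≥0∞), IsTrace τ ∧
        IsLscTrace σ ∧ Extends ι τ σ ∧ ¬ HasRank σ a (f τ) :=
  Pool.Agent.Y269.RankFinal.final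

end Pool.Agent.Results.MP_d8b6c2_an.RankProblem
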